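import Pool.Agent.H67.HM.Stm2

open Polynomial MeasureTheory Filter Topology

namespace H66.HM2
open HM

/-- Minkowski -/
theorem Bd_add {p : ℝ} (hp : 1 ≤ p) {f g : ℕ → ℂ} {s t : ℝ} (hs : 0 ≤ s) (ht : 0 ≤ t)
    (hf : Bd p f (s ^ p)) (hg : Bd p g (t ^ p)) : Bd p (fun k => f k + g k) ((s + t) ^ p) := by
  intro n
  have hp0 : 0 < p := by linarith
  have e : ∀ (h : ℕ → ℂ) (r : ℝ), 0 ≤ r → Bd p h (r ^ p) →
      (∑ k ∈ Finset.range n, ‖h k‖ ^ p) ^ (1 / p) ≤ r := by
    intro h r hr hh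
    have h1 : (∑ k ∈ Finset.range n, ‖h k‖ ^ p) ^ (1 / p) ≤ (r ^ p) ^ (1 / p) :=
      Real.rpow_le_rpow (Finset.sum_nonneg fun k _ => by positivity) (hh n) (by positivity)
    rwa [← Real.rpow_mul hr, mul_one_div_cancel hp0.ne', Real.rpow_one] at h1
  have h1 : (∑ k ∈ Finset.range n, ‖f k + g k‖ ^ p) ^ (1 / p) ≤ s + t := by
    calc (∑ k ∈ Finset.range n, ‖f k + g k‖ ^ p) ^ (1 / p)
        ≤ (∑ k ∈ Finset.range n, (‖f k‖ + ‖g k‖) ^ p) ^ (1 / p) := by
          refine Real.rpow_le_rpow (Finset.sum_nonneg fun k _ => by positivity) ?_ (by positivity)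
          exact Finset.sum_le_sum fun k _ =>
            Real.rpow_le_rpow (norm_nonneg _) (norm_add_le _ _) hp0.le
      _ ≤ (∑ k ∈ Finset.range n, ‖f k‖ ^ p) ^ (1 / p) +
          (∑ k ∈ Finset.range n, ‖g k‖ ^ p) ^ (1 / p) :=
          Real.Lp_add_le_of_nonneg _ hp (fun _ _ => norm_nonneg _) (fun _ _ => norm_nonneg _)
      _ ≤ s + t := add_le_add (e f s hs hf) (e g t ht hg)
  have h2 := Real.rpow_le_rpow (Real.rpow_nonneg (Finset.sum_nonneg fun k _ => by positivity) _)
    h1 hp0.le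
  rwa [← Real.rpow_mul (Finset.sum_nonneg fun k _ => by positivity), one_div_mul_cancel hp0.ne',
    Real.rpow_one] at h2

theorem Bd_mono {p : ℝ} {f : ℕ → ℂ} {s t : ℝ} (h : s ≤ t) (hf : Bd p f s) : Bd p f t :=
  fun n => (hf n).trans h

theorem cor_add (A : ℂ[X]) (f g : ℕ → ℂ) (k : ℕ) :
    cor A (fun l => f l + g l) k = cor A f k + cor A g k := by
  unfold cor
  rw [← Finset.sum_add_distrib]
  exact Finset.sum_congr rfl fun j _ => by ring

theorem le_of_rpow {x y r : ℝ} (hy : 0 ≤ y) (hr : 0 < r) (h : x ^ r ≤ y ^ r) :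
    x ≤ y := by
  by_contra hc
  push Not at hc
  exact absurd (Real.rpow_lt_rpow hy hc hr) (not_lt.2 h)

theorem tl_mul4 (D : ℕ) (x : RR) : tl (4 * X ^ D) * x =
    (4 : ℂ) • (AddMonoidAlgebra.single (D : ℤ) (1 : ℂ) * x) := by
  have h4 : (4 : ℂ[X]) = C 4 := rfl
  have hX : tl (X ^ D) = AddMonoidAlgebra.single (D : ℤ) (1 : ℂ) := by
    unfold tl
    rw [Polynomial.toLaurent_X_pow]; rfl
  rw [map_mul, hX, mul_assoc, h4]
  unfold tl
  rw [Polynomial.toLaurent_C, ← LaurentPolynomial.smul_eq_C_mul]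

set_option maxHeartbeats 4000000 in
theorem DSC2_proved (hWIN : S_WIN2) (hPZ : S_PZ) (hMRG : S_MRG) (hMN : S_MN) (hINV : S_INV)
    (hFCP : S_FCP) (hSEP : S_SEP) (hC : S_CRL) (hN : S_NRM) : S_DSC2 := by
  intro p hp m
  have hp1 : 1 ≤ p := by linarith
  have hp0 : 0 < p := by linarith
  refine ⟨2 * m + 3 ^ p + 4, by positivity, ?_⟩
  intro L γ a ε hL hε hγ ha1 ha2 ha3 η hη
  obtain ⟨P, F, R, Q, u, x, y, hP, hF, hQ, hx, hu, hy, hE⟩ :=
    hWIN p hp m L γ a ε hL hε hγ ha1 ha2 ha3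
  set q := p / (p - 1) with hq
  have hq1 : 1 ≤ q := by rw [hq, le_div_iff₀ (by linarith)]; linarith
  have hq2 : q ≤ 2 := by rw [hq, div_le_iff₀ (by linarith)]; linarith
  have hq0 : 0 < q := by linarith
  have hrv : ∀ (v : ℂ[X]) (l : ℕ), (rv v).coeff (-(l : ℤ)) = v.coeff l := by
    intro v l
    rw [hC.rv, if_pos (by simp)]
    simp
  have hcor : ∀ (B v : ℂ[X]) (k : ℕ), (tl B * rv v).coeff (-(k : ℤ)) = cor B v.coeff k := by
    intro B v k
    rw [← hC.cor]
    simp only [hrv]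
  -- step 1
  set M1 : ℝ := 1 + ∑ i, Nn 2 (rv (F i)) with hM1
  have hM1s : ∀ i, Nn 2 (rv (F i)) ≤ M1 := by
    intro i
    have := Finset.single_le_sum (f := fun i => Nn 2 (rv (F i))) (fun i _ => hN.nonneg _ _)
      (Finset.mem_univ i)
    linarith
  have hM1pos : 0 < M1 := by
    have := Finset.sum_nonneg (f := fun i => Nn 2 (rv (F i))) (s := Finset.univ)
      (fun i _ => hN.nonneg _ _)
    linarith
  obtain ⟨A, -, hAz, hAc, hA1⟩ := hPZ P (min (min (1 / 20) (η / 2)) (ε / M1)) (by positivity)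
  have hA1a : Nn 1 (tl A - tl P) ≤ 1 / 20 := hA1.trans ((min_le_left _ _).trans (min_le_left _ _))
  have hA1b : Nn 1 (tl A - tl P) ≤ ε / M1 := hA1.trans (min_le_right _ _)
  let EP : Fin m → RR := fun i => tl P * rv (F i) + ∑ r ∈ Finset.range R, tl (Q r) * rv (u r i)
  have hEP : ∀ i (k : ℕ), (EP i).coeff (-(k : ℤ)) =
      cor P (F i).coeff k + ∑ r ∈ Finset.range R, cor (Q r) (u r i).coeff k := by
    intro i k
    simp only [EP, AddMonoidAlgebra.coeff_add, AddMonoidAlgebra.coeff_sum, Finsupp.add_apply,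
      Finsupp.finsetSum_apply, hcor]
  choose Z hZ1 hZ2 using fun i => hC.neg (EP i)
  have hZ2' : ∀ i, Nn 2 (Z i) ≤ 2 * ε := by
    intro i
    refine hZ2 i 2 (2 * ε) (by norm_num) (by positivity) ?_
    have h := hE i
    simp only [hEP]
    convert h using 1
    exact Real.rpow_two _
  let E' : Fin m → RR := fun i => Z i + (tl A - tl P) * rv (F i)
  have hE'2 : ∀ i, Nn 2 (E' i) ≤ 3 * ε := by
    intro i
    have h1 := hN.add 2 (Z i) ((tl A - tl P) * rv (F i)) (by norm_num)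
    have h2 := hN.mul 2 (tl A - tl P) (rv (F i)) (by norm_num)
    have h3 : Nn 1 (tl A - tl P) * Nn 2 (rv (F i)) ≤ ε / M1 * M1 :=
      mul_le_mul hA1b (hM1s i) (hN.nonneg _ _) (by positivity)
    rw [div_mul_cancel₀ _ hM1pos.ne'] at h3
    have := hZ2' i
    change Nn 2 (Z i + (tl A - tl P) * rv (F i)) ≤ _
    linarith
  have hE'p : ∀ i, Nn p (E' i) ≤ 3 * ε := fun i =>
    (hN.mono 2 p _ (by norm_num) hp.le).trans (hE'2 i)
  obtain ⟨C, hCpos, hMN'⟩ := hMN p hp A hAz
  -- step 2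
  let g : ℕ → ℂ[X] := fun r => if r < R then Q r else 1
  let f : ℕ → Fin m → RR := fun r i => if r < R then rv (u r i) else - E' i
  obtain ⟨γ₁, F', hγ₁, hF'⟩ := hMRG p hp (R + 1) m g f (ε / (2 * C)) (by positivity)
  have hsum : ∀ i, ∑ r ∈ Finset.range (R + 1), tl (g r) * f r i =
      ∑ r ∈ Finset.range R, tl (Q r) * rv (u r i) - E' i := by
    intro i
    rw [Finset.sum_range_succ]
    have : ∑ r ∈ Finset.range R, tl (g r) * f r i =
        ∑ r ∈ Finset.range R, tl (Q r) * rv (u r i) := by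
      refine Finset.sum_congr rfl fun r hr => ?_
      simp only [g, f, if_pos (Finset.mem_range.1 hr)]
    rw [this]
    simp only [g, f, lt_irrefl, if_false, map_one, one_mul]
    ring
  have hγ₁' : Nn q (tl γ₁) ≤ 2 := by
    have h1 : Nn q (tl γ₁) ^ q ≤ 2 := by
      refine hγ₁.trans ?_
      rw [Finset.sum_range_succ]
      have h2 : ∑ r ∈ Finset.range R, Nn q (tl (g r)) ^ q ≤ ∑ r ∈ Finset.range R, x r := by
        refine Finset.sum_le_sum fun r hr => ?_
        simp only [g, if_pos (Finset.mem_range.1 hr)]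
        exact (hC.bdp _ _ _ hq1).1 (hQ r (Finset.mem_range.1 hr))
      have h3 : Nn q (tl (g R)) ^ q = 1 := by
        simp only [g, lt_irrefl, if_false, map_one, hN.one q hq1, Real.one_rpow]
      rw [h3]
      linarith
    refine le_of_rpow (by norm_num) hq0 (h1.trans ?_)
    calc (2 : ℝ) = 2 ^ (1 : ℝ) := (Real.rpow_one _).symm
      _ ≤ 2 ^ q := Real.rpow_le_rpow_of_exponent_le (by norm_num) hq1
  have h3p : (1 : ℝ) ≤ 3 ^ p := Real.one_le_rpow (by norm_num) hp0.le
  have hK1 : (1 : ℝ) ≤ 2 * m + 3 ^ p := by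
    have : (0 : ℝ) ≤ 2 * m := by positivity
    linarith
  have hF'n : ∀ i, Nn p (F' i) ≤ (2 * m + 3 ^ p) * ε := by
    intro i
    refine le_of_rpow (by positivity) hp0 ((hF' i).1.trans ?_)
    rw [Finset.sum_range_succ]
    have h2 : ∑ r ∈ Finset.range R, Nn p (f r i) ^ p ≤ ∑ r ∈ Finset.range R, y r := by
      refine Finset.sum_le_sum fun r hr => ?_
      simp only [f, if_pos (Finset.mem_range.1 hr)]
      rw [hC.rvn]
      exact (hC.bdp _ _ _ hp1).1 (hu r (Finset.mem_range.1 hr) i)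
    have h3 : Nn p (f R i) ^ p ≤ 3 ^ p * ε ^ p := by
      simp only [f, lt_irrefl, if_false]
      rw [hN.neg, ← Real.mul_rpow (by norm_num) hε.le]
      exact Real.rpow_le_rpow (hN.nonneg _ _) (hE'p i) hp0.le
    rw [Real.mul_rpow (by positivity) hε.le]
    have h4 : (2 * m + 3 ^ p : ℝ) ≤ (2 * m + 3 ^ p) ^ p := by
      calc (2 * m + 3 ^ p : ℝ) = (2 * m + 3 ^ p) ^ (1 : ℝ) := (Real.rpow_one _).symm
        _ ≤ (2 * m + 3 ^ p) ^ p := Real.rpow_le_rpow_of_exponent_le hK1 hp1
    have h5 : 0 < ε ^ p := Real.rpow_pos_of_pos hε p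
    nlinarith
  -- step 3
  set M3 : ℝ := 1 + ∑ i, Nn p (F' i) with hM3
  have hM3s : ∀ i, Nn p (F' i) ≤ M3 := by
    intro i
    have := Finset.single_le_sum (f := fun i => Nn p (F' i)) (fun i _ => hN.nonneg _ _)
      (Finset.mem_univ i)
    linarith
  have hM3pos : 0 < M3 := by
    have := Finset.sum_nonneg (f := fun i => Nn p (F' i)) (s := Finset.univ)
      (fun i _ => hN.nonneg _ _)
    linarith
  obtain ⟨γ', -, hγ'z, -, hγ'1⟩ := hPZ γ₁ (min (1 / 8) (ε / (2 * C) / M3)) (by positivity)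
  have hγ'a : Nn 1 (tl γ' - tl γ₁) ≤ 1 / 8 := hγ'1.trans (min_le_left _ _)
  have hγ'b : Nn 1 (tl γ' - tl γ₁) ≤ ε / (2 * C) / M3 := hγ'1.trans (min_le_right _ _)
  have hγ'q : Nn q (tl γ') ≤ 2 + 1 / 8 := by
    have h1 := hN.add q (tl γ₁) (tl γ' - tl γ₁) hq1
    have h2 := hN.mono 1 q (tl γ' - tl γ₁) le_rfl hq1
    rw [add_sub_cancel] at h1
    linarith
  let ψ : Fin m → RR := fun i =>
    ∑ r ∈ Finset.range R, tl (Q r) * rv (u r i) - E' i - tl γ' * F' i
  have hψ : ∀ i, C * Nn p (ψ i) ≤ ε := by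
    intro i
    have e1 : ψ i = -(tl γ₁ * F' i - ∑ r ∈ Finset.range (R + 1), tl (g r) * f r i) -
        (tl γ' - tl γ₁) * F' i := by
      rw [hsum]
      simp only [ψ]
      ring
    have h1 := hN.sub p (-(tl γ₁ * F' i - ∑ r ∈ Finset.range (R + 1), tl (g r) * f r i))
      ((tl γ' - tl γ₁) * F' i) hp1
    rw [← e1, hN.neg] at h1
    have h2 := (hF' i).2
    have h3 := hN.mul p (tl γ' - tl γ₁) (F' i) hp1
    have h4 : Nn 1 (tl γ' - tl γ₁) * Nn p (F' i) ≤ ε / (2 * C) / M3 * M3 :=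
      mul_le_mul hγ'b (hM3s i) (hN.nonneg _ _) (by positivity)
    rw [div_mul_cancel₀ _ hM3pos.ne'] at h4
    have h5 : Nn p (ψ i) ≤ ε / (2 * C) + ε / (2 * C) := by linarith
    have h6 : ε / (2 * C) + ε / (2 * C) = ε / C := by field_simp; ring
    rw [h6] at h5
    calc C * Nn p (ψ i) ≤ C * (ε / C) := mul_le_mul_of_nonneg_left h5 hCpos.le
      _ = ε := by field_simp
  -- step 4
  obtain ⟨b', D, hb', hD, hγb, hGz, hMN''⟩ := hMN' γ' hγ'z m F' ψ ε (L + 1) hε
  set G₀ : ℂ[X] := A * (1 + 4 * X ^ D) + γ' * b' with hG₀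
  clear_value G₀
  have hPq : Nn q (tl P) ≤ 1 := by
    refine le_of_rpow zero_le_one hq0 ?_
    rw [Real.one_rpow, ← hC.bdp _ _ _ hq1]
    intro n
    refine le_trans (Finset.sum_le_sum fun k _ => ?_) (hγ n)
    rw [hP]
    split_ifs
    · exact le_rfl
    · rw [norm_zero, Real.zero_rpow hq0.ne']
      positivity
  have hAq : Nn q (tl A) ≤ 1 + 1 / 20 := by
    have h1 := hN.add q (tl P) (tl A - tl P) hq1
    have h2 := hN.mono 1 q (tl A - tl P) le_rfl hq1
    rw [add_sub_cancel] at h1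
    linarith
  have hG₀q : Nn q (tl G₀) ≤ 5 * (1 + 1 / 20) + (2 + 1 / 8) := by
    have e1 : tl G₀ = (tl A + (4 : ℂ) • (AddMonoidAlgebra.single (D : ℤ) (1 : ℂ) * tl A)) +
        tl (γ' * b') := by
      rw [← tl_mul4, hG₀]
      simp only [map_add, map_mul, map_one]
      ring
    have h1 := hN.add q (tl A + (4 : ℂ) • (AddMonoidAlgebra.single (D : ℤ) (1 : ℂ) * tl A))
      (tl (γ' * b')) hq1
    have h2 := hN.add q (tl A) ((4 : ℂ) • (AddMonoidAlgebra.single (D : ℤ) (1 : ℂ) * tl A)) hq1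
    rw [hN.smul q _ _ hq1, hN.single_mul q _ _ hq1] at h2
    have h4 : ‖(4 : ℂ)‖ = 4 := by norm_num
    rw [h4] at h2
    rw [e1]
    linarith
  -- step 5
  obtain ⟨C0, hC0, hinv⟩ := hINV G₀ hGz
  obtain ⟨C', δ, hC', hδ, hfcp⟩ := hFCP p (by linarith) G₀
    (by obtain ⟨a, h1, -⟩ := hinv (1 / 4) (by norm_num); exact ⟨a, h1⟩)
  -- step 6
  obtain ⟨Y, P', hYP⟩ := hMN'' (ε / (2 * C')) (by positivity)
  let W : Fin m → RR := fun i => rv (F i) + Y i
  set M6 : ℝ := 1 + ∑ i, Nn p (W i) with hM6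
  have hM6s : ∀ i, Nn p (W i) ≤ M6 := by
    intro i
    have := Finset.single_le_sum (f := fun i => Nn p (W i)) (fun i _ => hN.nonneg _ _)
      (Finset.mem_univ i)
    linarith
  have hM6pos : 0 < M6 := by
    have := Finset.sum_nonneg (f := fun i => Nn p (W i)) (s := Finset.univ)
      (fun i _ => hN.nonneg _ _)
    linarith
  have hnd : (0 : ℝ) < (G₀.natDegree : ℝ) + 1 := by exact_mod_cast Nat.succ_pos _
  have ht6 : 0 < min (1 / 8) (ε / (2 * C') / M6) :=
    lt_min (by norm_num) (div_pos (div_pos hε (by linarith)) hM6pos)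
  clear_value M1 M3 M6
  obtain ⟨G, hGs, hG0, hGd, hGc⟩ := hSEP G₀ (min (min (η / 2) δ)
    (min (1 / 8) (ε / (2 * C') / M6) / (G₀.natDegree + 1)))
    (lt_min (lt_min (half_pos hη) hδ) (div_pos ht6 hnd))
  have hGca : ∀ k, ‖G.coeff k - G₀.coeff k‖ ≤ η / 2 := fun k =>
    (hGc k).trans ((min_le_left _ _).trans (min_le_left _ _))
  have hGcb : ∀ k, ‖G.coeff k - G₀.coeff k‖ ≤ δ := fun k =>
    (hGc k).trans ((min_le_left _ _).trans (min_le_right _ _))
  have hG1 : Nn 1 (tl G - tl G₀) ≤ min (1 / 8) (ε / (2 * C') / M6) := by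
    have h1 : Nn 1 (tl (G - G₀)) ^ (1 : ℝ) ≤ min (1 / 8) (ε / (2 * C') / M6) := by
      rw [← hC.bdp _ _ _ le_rfl]
      intro n
      set t := min (1 / 8) (ε / (2 * C') / M6) with ht
      have htp : 0 < t := ht6
      calc ∑ k ∈ Finset.range n, ‖(G - G₀).coeff k‖ ^ (1 : ℝ)
          ≤ ∑ k ∈ Finset.range (G₀.natDegree + 1), t / (G₀.natDegree + 1) := by
            have h2 : ∀ k ∈ Finset.range n, k ∉ Finset.range (G₀.natDegree + 1) →
                ‖(G - G₀).coeff k‖ ^ (1 : ℝ) = 0 := by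
              intro k _ hk
              rw [Finset.mem_range, not_lt] at hk
              rw [coeff_sub, coeff_eq_zero_of_natDegree_lt (by omega),
                coeff_eq_zero_of_natDegree_lt (by omega)]
              simp
            calc ∑ k ∈ Finset.range n, ‖(G - G₀).coeff k‖ ^ (1 : ℝ)
                ≤ ∑ k ∈ Finset.range (G₀.natDegree + 1), ‖(G - G₀).coeff k‖ ^ (1 : ℝ) := by
                  rw [← Finset.sum_filter_add_sum_filter_not (Finset.range n)
                    (fun k => k ∈ Finset.range (G₀.natDegree + 1))]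
                  rw [Finset.sum_eq_zero (s := (Finset.range n).filter
                    (fun k => ¬ k ∈ Finset.range (G₀.natDegree + 1))) (fun k hk => by
                      rw [Finset.mem_filter] at hk
                      exact h2 k hk.1 hk.2), add_zero]
                  refine Finset.sum_le_sum_of_subset_of_nonneg (fun k hk => ?_)
                    (fun k _ _ => by positivity)
                  exact (Finset.mem_filter.1 hk).2
              _ ≤ _ := by
                  refine Finset.sum_le_sum fun k _ => ?_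
                  rw [Real.rpow_one, coeff_sub]
                  exact (hGc k).trans (min_le_right _ _)
        _ = t := by
            rw [Finset.sum_const, Finset.card_range, nsmul_eq_mul]
            push_cast
            exact mul_div_cancel₀ _ hnd.ne'
    rwa [Real.rpow_one, map_sub] at h1
  have hG1a : Nn 1 (tl G - tl G₀) ≤ 1 / 8 := hG1.trans (min_le_left _ _)
  have hG1b : Nn 1 (tl G - tl G₀) ≤ ε / (2 * C') / M6 := hG1.trans (min_le_right _ _)
  let σ : Fin m → RR := fun i => (tl G - tl G₀) * W i +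
    (tl G₀ * Y i - tl γ' * F' i - ψ i - P' i)
  have hσ : ∀ i, Nn p (σ i) ≤ ε / C' := by
    intro i
    have h1 := hN.add p ((tl G - tl G₀) * W i) (tl G₀ * Y i - tl γ' * F' i - ψ i - P' i) hp1
    have h2 := (hYP i).2.2
    have h3 := hN.mul p (tl G - tl G₀) (W i) hp1
    have h4 : Nn 1 (tl G - tl G₀) * Nn p (W i) ≤ ε / (2 * C') / M6 * M6 :=
      mul_le_mul hG1b (hM6s i) (hN.nonneg _ _) (by positivity)
    rw [div_mul_cancel₀ _ hM6pos.ne'] at h4
    have h6 : ε / (2 * C') + ε / (2 * C') = ε / C' := by field_simp; ring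
    change Nn p ((tl G - tl G₀) * W i + (tl G₀ * Y i - tl γ' * F' i - ψ i - P' i)) ≤ _
    linarith
  -- low coefficients of `G₀ - A`
  have hlow : ∀ j < L + 1, (G₀ - A).coeff j = 0 := by
    intro j hj
    have e1 : G₀ - A = (4 * A) * X ^ D + γ' * b' := by rw [hG₀]; ring
    rw [e1, coeff_add, coeff_mul_X_pow', if_neg (by omega), zero_add, coeff_mul]
    refine Finset.sum_eq_zero fun x hx => ?_
    rw [hb' x.2 (by have := Finset.HasAntidiagonal.mem_antidiagonal.1 hx; omega), mul_zero]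
  have hlow2 : ∀ i (k : ℕ), (tl (G₀ - A) * rv (F i)).coeff (-(k : ℤ)) = 0 := by
    intro i k
    rw [hcor]
    unfold cor
    refine Finset.sum_eq_zero fun j hj => ?_
    rcases lt_or_ge j (L + 1) with h | h
    · rw [hlow j h, zero_mul]
    · rw [hF, if_neg (by omega), mul_zero]
  have hkey : ∀ i (k : ℕ), (tl G * W i).coeff (-(k : ℤ)) = (σ i).coeff (-(k : ℤ)) := by
    intro i k
    have e1 : tl G * W i = σ i + ((EP i - Z i) + tl (G₀ - A) * rv (F i) + P' i) := by
      simp only [σ, W, EP, ψ, E', map_sub]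
      ring
    rw [e1]
    simp only [AddMonoidAlgebra.coeff_add, AddMonoidAlgebra.coeff_sub, Finsupp.add_apply,
      Finsupp.sub_apply, hlow2, hZ1]
    rw [if_pos (by simp), (hYP i).1 _ (by simp)]
    ring
  choose e he1 he2 using fun i => hfcp G hGd hGcb (fun k => (σ i).coeff (-(k : ℤ)))
    (Nn p (σ i)) (hN.nonneg _ _) (hC.bd (σ i) p hp1)
  refine ⟨G, fun i k => (W i).coeff (-(k : ℤ)) + e i k, hGs, hG0, ?_, ?_, ?_⟩
  · intro k hk
    have h1 := hGca k
    have h2 := (hAc k).trans ((min_le_left _ _).trans (min_le_right _ _))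
    have h3 : G₀.coeff k = A.coeff k := by
      have := hlow k (by omega)
      rw [coeff_sub] at this
      exact sub_eq_zero.1 this
    rw [h3] at h1
    rw [hP, if_pos hk] at h2
    calc ‖G.coeff k - γ k‖ = ‖(G.coeff k - A.coeff k) + (A.coeff k - γ k)‖ := by ring_nf
      _ ≤ _ := norm_add_le _ _
      _ ≤ η := by linarith
  · rw [hC.bdp _ _ _ hq1]
    have h1 : Nn q (tl G) ≤ 8 := by
      have h1 := hN.add q (tl G₀) (tl G - tl G₀) hq1
      have h2 := hN.mono 1 q (tl G - tl G₀) le_rfl hq1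
      rw [add_sub_cancel] at h1
      linarith
    calc Nn q (tl G) ^ q ≤ 8 ^ q := Real.rpow_le_rpow (hN.nonneg _ _) h1 hq0.le
      _ ≤ 8 ^ (2 : ℝ) := Real.rpow_le_rpow_of_exponent_le (by norm_num) hq2
      _ = 64 := by norm_num
  · intro i
    constructor
    · have b1 : Bd p (fun k => (F i).coeff k - a i k) (ε ^ p) := by
        intro n
        refine le_trans ?_ (ha2 i n)
        have h2 : ∀ k, ‖(F i).coeff k - a i k‖ ^ p = if k < L then 0 else ‖a i k‖ ^ p := by
          intro k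
          rw [hF]
          split_ifs
          · rw [sub_self, norm_zero, Real.zero_rpow hp0.ne']
          · rw [zero_sub, norm_neg]
        simp only [h2]
        calc ∑ k ∈ Finset.range n, (if k < L then 0 else ‖a i k‖ ^ p)
            ≤ ∑ k ∈ Finset.range (L + n), (if k < L then 0 else ‖a i k‖ ^ p) := by
              refine Finset.sum_le_sum_of_subset_of_nonneg
                (Finset.range_mono (by omega)) fun k _ _ => ?_
              split_ifs <;> positivity
          _ = ∑ k ∈ Finset.range n, ‖a i (L + k)‖ ^ p := by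
              rw [Finset.sum_range_add]
              rw [Finset.sum_eq_zero fun k hk => if_pos (Finset.mem_range.1 hk), zero_add]
              exact Finset.sum_congr rfl fun k _ => if_neg (by omega)
      have b2 : Bd p (fun k => (Y i).coeff (-(k : ℤ))) (((2 * m + 3 ^ p + 2) * ε) ^ p) := by
        refine Bd_mono ?_ (hC.bd (Y i) p hp1)
        refine Real.rpow_le_rpow (hN.nonneg _ _) ?_ hp0.le
        have h1 := (hYP i).2.1
        have h2 := hF'n i
        have h3 := hψ i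
        linarith
      have b3 : Bd p (e i) (ε ^ p) := by
        refine Bd_mono ?_ (he1 i)
        refine Real.rpow_le_rpow (mul_nonneg hC'.le (hN.nonneg _ _)) ?_ hp0.le
        calc C' * Nn p (σ i) ≤ C' * (ε / C') := mul_le_mul_of_nonneg_left (hσ i) hC'.le
          _ = ε := by field_simp
      have b4 := Bd_add hp1 (by positivity) (by positivity)
        (Bd_add hp1 (by positivity) (by positivity) b1 b2) b3
      have e1 : ε + (2 * m + 3 ^ p + 2) * ε + ε = (2 * m + 3 ^ p + 4) * ε := by ring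
      rw [e1] at b4
      convert b4 using 2 with k
      simp only [W, AddMonoidAlgebra.coeff_add, Finsupp.add_apply, hrv]
      ring
    · intro k
      rw [cor_add, he2, hC.cor, hkey]
      ring

end H66.HM2
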